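import Pool.Agent.Helper35.SHR.Sheet2

/-! Row V3N. -/

namespace SHR
open SHQ
open scoped ENNReal

theorem st_V3N (h1 : ST_V3E) (h2 : ST_STARN) (h3 : ST_V5N) (h4 : ST_WTN) : ST_V3N := by
  intro n z o p g F f hgp hF Y k
  obtain ⟨wa, wm, wr⟩ := h4
  obtain ⟨r0, r1, r2, -, rw1⟩ := wr n p g hgp
  obtain ⟨e0, e1, -⟩ := h1 n (toE z) o.om p g f hgp
  have mle : ∀ a b : ℕ, toE (mulN a b) ≤ toE a * toE b := fun a b => (wa a b).1
  have add : ∀ a b : ℕ, toE (a + b) = toE a + toE b := fun a b => (wa a b).2.2.1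
  have q0 : ((0 : Fin 3), (0 : Fin (n + 1))) = rs p g (p, 0) := by rw [rs, r0]
  have q1 : ((1 : Fin 3), (0 : Fin (n + 1))) = rs p g (th p g, 0) := by rw [rs, r1]
  have q2 : ((2 : Fin 3), (0 : Fin (n + 1))) = rs p g (g, 0) := by rw [rs, r2]
  have hLN : ∀ (X : St n → ℕ) (x : St n → ℝ≥0∞), (∀ s, toE (X (rs p g s)) ≤ x s) →
      ∀ (a : Fin 3) (s : St n), toE (LN o (rl p g a) X (rs p g s)) ≤ wt o.om s a * x (nx s a) := by
    intro X x hX a s
    obtain ⟨u1, u2, -⟩ := rw1 o s a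
    rw [LN]
    refine (mle _ _).trans ?_
    rw [u1, u2]
    gcongr
    exact hX _
  induction k with
  | zero =>
    intro s
    obtain ⟨-, vH, -, vE, vA⟩ := h3 n z o p g F f hgp hF Y s
    obtain ⟨a1, a2, a3⟩ := e0 s
    refine ⟨?_, ?_, ?_⟩
    · rw [a1]; exact vE
    · rw [a2]; exact vH
    · rw [a3]; exact vA
  | succ k ih =>
    have hE : ∀ s, toE ((v3 z Y o (v5 z o F Y) k).EN (rs p g s)) ≤ EN3 (toE z) o.om p g f k s :=
      fun s => (ih s).1
    have hZ : ∀ s, toE ((v3 z Y o (v5 z o F Y) k).ZN (rs p g s)) ≤ ZN3 (toE z) o.om p g f k s :=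
      fun s => (ih s).2.1
    have hM : ∀ s, toE ((v3 z Y o (v5 z o F Y) k).MP (rs p g s)) ≤ MP3 (toE z) o.om p g f k s :=
      fun s => (ih s).2.2
    have key : ∀ (X : St n → ℕ) (x : St n → ℝ≥0∞), (∀ s, toE (X (rs p g s)) ≤ x s) → ∀ s,
        toE (star2 z o 1 2 X Y (rs p g s)) ≤ SB (toE z) o.om (th p g) g x s := by
      intro X x hX s
      have := (h2 n z o p g X x hgp hX Y (th p g) g s).1
      rwa [r1, r2] at this
    have kE := key _ _ hE
    have kZ := key _ _ hZ
    have kM := key _ _ hM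
    intro s
    obtain ⟨b1, b2, b3⟩ := e1 k s
    refine ⟨?_, ?_, ?_⟩
    · rw [b1]
      have e : (v3 z Y o (v5 z o F Y) (k + 1)).EN (rs p g s) =
          mulN z (star2 z o 1 2 (v3 z Y o (v5 z o F Y) k).EN Y (rs p g s)) := by
        rw [v3]; simp only; rw [wm]
      rw [e]
      refine (mle _ _).trans ?_
      gcongr
      exact kE s
    · rw [b2]
      have e : (v3 z Y o (v5 z o F Y) (k + 1)).ZN (rs p g s) =
          mulN z (star2 z o 1 2 (v3 z Y o (v5 z o F Y) k).ZN Y (rs p g s)) := by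
        rw [v3]; simp only; rw [wm]
      rw [e]
      refine (mle _ _).trans ?_
      gcongr
      exact kZ s
    · rw [b3]
      have e : (v3 z Y o (v5 z o F Y) (k + 1)).MP (rs p g s) =
          mulN z ((v3 z Y o (v5 z o F Y) k).MP (rs p g s) + mulN z (mulN (kpN o (rs p g s))
            (LN o 1 (star2 z o 1 2 (v3 z Y o (v5 z o F Y) k).EN Y) (0, 0) +
              star2 z o 1 2 (v3 z Y o (v5 z o F Y) k).MP Y (1, 0) +
              LN o 2 (star2 z o 1 2 (v3 z Y o (v5 z o F Y) k).EN Y) (0, 0) +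
              star2 z o 1 2 (v3 z Y o (v5 z o F Y) k).MP Y (2, 0)))) := by
        rw [v3]; simp only; rw [wm]
      have l1 : toE (LN o 1 (star2 z o 1 2 (v3 z Y o (v5 z o F Y) k).EN Y) (0, 0)) ≤
          wt o.om ((p, 0) : St n) (th p g) * SB (toE z) o.om (th p g) g
            (EN3 (toE z) o.om p g f k) (nx (p, 0) (th p g)) := by
        have := hLN _ _ kE (th p g) (p, 0)
        rwa [r1, ← q0] at this
      have l2 : toE (LN o 2 (star2 z o 1 2 (v3 z Y o (v5 z o F Y) k).EN Y) (0, 0)) ≤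
          wt o.om ((p, 0) : St n) g * SB (toE z) o.om (th p g) g
            (EN3 (toE z) o.om p g f k) (nx (p, 0) g) := by
        have := hLN _ _ kE g (p, 0)
        rwa [r2, ← q0] at this
      have l3 : toE (star2 z o 1 2 (v3 z Y o (v5 z o F Y) k).MP Y (1, 0)) ≤
          SB (toE z) o.om (th p g) g (MP3 (toE z) o.om p g f k) (th p g, 0) := by
        rw [q1]; exact kM _
      have l4 : toE (star2 z o 1 2 (v3 z Y o (v5 z o F Y) k).MP Y (2, 0)) ≤
          SB (toE z) o.om (th p g) g (MP3 (toE z) o.om p g f k) (g, 0) := by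
        rw [q2]; exact kM _
      rw [e]
      refine (mle _ _).trans ?_
      rw [add]
      gcongr
      · exact hM s
      · refine (mle _ _).trans ?_
        gcongr
        refine (mle _ _).trans ?_
        rw [add, add, add, ← add_assoc]
        gcongr
        exact (rw1 o s p).2.2

end SHR
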